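import Pool.Agent.U167.SA.Stm2
import Pool.Agent.U692.SA.UNI

/-!
Project SA, package UNI2: an arc around the tip of a slit.
-/

set_option autoImplicit false
set_option maxHeartbeats 400000

namespace Pool.Agent.U789.SA

open H974 Finset Filter Topology Pool.Agent.U167.SA Pool.Agent.U692.SA

/-- Follow a path until the first vertex with column `b`, from the left. -/
theorem stop_col' {G : Set Edg} {b : ℤ} {p r : Vtx} (h : Reach G p r) (hp : col p ≤ b)
    (hr : b ≤ col r) :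
    ∃ w, col w = b ∧ Reach (G ∩ {e | col (src e) ≤ b ∧ col (tgt e) ≤ b}) p w := by
  have key : ∀ w, Reach G p w →
      (∃ w, col w = b ∧ Reach (G ∩ {e | col (src e) ≤ b ∧ col (tgt e) ≤ b}) p w) ∨
      (col w < b ∧ Reach (G ∩ {e | col (src e) ≤ b ∧ col (tgt e) ≤ b}) p w) := by
    intro w hw
    induction hw with
    | refl =>
      rcases hp.lt_or_eq with h | h
      · exact Or.inr ⟨h, Reach.refl _ _⟩
      · exact Or.inl ⟨p, h, Reach.refl _ _⟩
    | @tail w w' _ hs ih =>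
      rcases ih with ih | ⟨ih1, ih2⟩
      · exact Or.inl ih
      · obtain ⟨⟨x, y, bo⟩, he, hc⟩ := hs
        have hcol : col w' ≤ b := by
          unfold col at ih1 ⊢
          cases bo
          · simp only [src_mk, tgt_false] at hc
            rcases hc with ⟨h1, h2⟩ | ⟨h1, h2⟩
            · rw [← h1] at ih1; rw [← h2]; simp only at ih1 ⊢; omega
            · rw [← h2] at ih1; rw [← h1]; simp only at ih1 ⊢; omega
          · simp only [src_mk, tgt_true] at hc
            rcases hc with ⟨h1, h2⟩ | ⟨h1, h2⟩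
            · rw [← h1] at ih1; rw [← h2]; simp only at ih1 ⊢; omega
            · rw [← h2] at ih1; rw [← h1]; simp only at ih1 ⊢; omega
        have hadj : Adj (G ∩ {e | col (src e) ≤ b ∧ col (tgt e) ≤ b}) w w' := by
          refine ⟨(x, y, bo), ⟨he, ?_⟩, hc⟩
          rcases hc with ⟨h1, h2⟩ | ⟨h1, h2⟩
          · exact ⟨by rw [h1]; exact ih1.le, by rw [h2]; exact hcol⟩
          · exact ⟨by rw [h1]; exact hcol, by rw [h2]; exact ih1.le⟩
        have hr' := ih2.trans hadj.reach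
        rcases hcol.lt_or_eq with h | h
        · exact Or.inr ⟨h, hr'⟩
        · exact Or.inl ⟨w', h, hr'⟩
  rcases key r h with h1 | ⟨h1, h2⟩
  · exact h1
  · omega

/-- A property of vertices which is preserved along the edges. -/
theorem keep {G : Set Edg} {P : Vtx → Prop} (hP : ∀ e ∈ G, P (src e) ↔ P (tgt e)) {p q : Vtx}
    (h : Reach G p q) (hp : P p) :
    P q ∧ Reach (G ∩ {e | P (src e) ∧ P (tgt e)}) p q := by
  induction h with
  | refl => exact ⟨hp, Reach.refl _ _⟩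
  | @tail w w' _ hs ih =>
    obtain ⟨e, he, hc⟩ := hs
    obtain ⟨ih1, ih2⟩ := ih
    have h0 := hP e he
    rcases hc with ⟨h1, h2⟩ | ⟨h1, h2⟩
    · have h3 : P (src e) := by rw [h1]; exact ih1
      have h4 : P (tgt e) := h0.1 h3
      refine ⟨by rw [← h2]; exact h4, ih2.trans (Adj.reach ⟨e, ⟨he, h3, h4⟩, Or.inl ⟨h1, h2⟩⟩)⟩
    · have h3 : P (tgt e) := by rw [h2]; exact ih1
      have h4 : P (src e) := h0.2 h3
      refine ⟨by rw [← h1]; exact h4, ih2.trans (Adj.reach ⟨e, ⟨he, h4, h3⟩, Or.inr ⟨h1, h2⟩⟩)⟩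

/-- The edges of `Slt`. -/
theorem slt_false {x y : ℤ} : ((x, y, false) : Edg) ∈ Slt ↔
    ¬ (1 ≤ x + y ∧ 1 ≤ x + (y + 1) ∧ (x - y = 1 ∨ x - (y + 1) = 1)) := Iff.rfl

theorem slt_true {x y : ℤ} : ((x, y, true) : Edg) ∈ Slt ↔
    ¬ (1 ≤ x + y ∧ 1 ≤ x + 1 + y ∧ (x - y = 1 ∨ x + 1 - y = 1)) := Iff.rfl

/-- column at most zero is preserved above `y = m` -/
theorem keep_zero {M : ℤ} (hM : 4 ≤ M) {J : Set Edg}
    (hJ2 : ∀ e ∈ J, e ∉ RE (-(M-1)) (M-1) (-(M-1)) (M-1) → e ∈ Slt) {e : Edg} (he : e ∈ J)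
    (h1 : M ≤ (src e).2) (h2 : M ≤ (tgt e).2) : (col (src e) ≤ 0 ↔ col (tgt e) ≤ 0) := by
  obtain ⟨x, y, bo⟩ := e
  cases bo
  · simp only [src_mk, tgt_false] at h1 h2
    have h3 := slt_false.1 (hJ2 _ he (by simp only [mem_RE_false]; omega))
    unfold col
    simp only [src_mk, tgt_false]
    omega
  · simp only [src_mk, tgt_true] at h1 h2
    have h3 := slt_true.1 (hJ2 _ he (by simp only [mem_RE_true]; omega))
    unfold col
    simp only [src_mk, tgt_true]
    omega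

/-- column at least two is preserved to the right of `x = m` -/
theorem keep_two {M : ℤ} (hM : 4 ≤ M) {J : Set Edg}
    (hJ2 : ∀ e ∈ J, e ∉ RE (-(M-1)) (M-1) (-(M-1)) (M-1) → e ∈ Slt) {e : Edg} (he : e ∈ J)
    (h1 : M ≤ (src e).1) (h2 : M ≤ (tgt e).1) : (2 ≤ col (src e) ↔ 2 ≤ col (tgt e)) := by
  obtain ⟨x, y, bo⟩ := e
  cases bo
  · simp only [src_mk, tgt_false] at h1 h2
    have h3 := slt_false.1 (hJ2 _ he (by simp only [mem_RE_false]; omega))
    unfold col
    simp only [src_mk, tgt_false]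
    omega
  · simp only [src_mk, tgt_true] at h1 h2
    have h3 := slt_true.1 (hJ2 _ he (by simp only [mem_RE_true]; omega))
    unfold col
    simp only [src_mk, tgt_true]
    omega

/-- an end of an edge to the right of `x = m` is not in column one, if it is not below -/
theorem ne_one {M : ℤ} (hM : 4 ≤ M) {J : Set Edg}
    (hJ2 : ∀ e ∈ J, e ∉ RE (-(M-1)) (M-1) (-(M-1)) (M-1) → e ∈ Slt) {e : Edg} (he : e ∈ J)
    (h1 : M ≤ (src e).1) (h2 : M ≤ (tgt e).1) : col (src e) ≠ 1 ∧ col (tgt e) ≠ 1 := by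
  obtain ⟨x, y, bo⟩ := e
  cases bo
  · simp only [src_mk, tgt_false] at h1 h2
    have h3 := slt_false.1 (hJ2 _ he (by simp only [mem_RE_false]; omega))
    unfold col
    simp only [src_mk, tgt_false]
    omega
  · simp only [src_mk, tgt_true] at h1 h2
    have h3 := slt_true.1 (hJ2 _ he (by simp only [mem_RE_true]; omega))
    unfold col
    simp only [src_mk, tgt_true]
    omega

/-- The integer form. -/
theorem core2 {M : ℤ} (hM : 4 ≤ M) {F J : Set Edg}
    (hJ2 : ∀ e ∈ J, e ∉ RE (-(M-1)) (M-1) (-(M-1)) (M-1) → e ∈ Slt)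
    (hJ3 : ∀ e ∈ F, e ∈ RE (-(4*M)) (4*M) (-(4*M)) (4*M) →
      e ∉ RE (-(M-1)) (M-1) (-(M-1)) (M-1) → e ∈ Slt → e ∈ J)
    {x x' : ℤ} (hx : M ≤ x ∧ x ≤ 3*M) (hx' : M ≤ x' ∧ x' ≤ 3*M)
    (hR : Reach (F ∩ ↑(TBE M (3*M) (-(3*M)) (4*M))) (x, -(3*M)) (x', 4*M))
    {yB yB' : ℤ}
    (hB : Reach (F ∩ ↑(LRE (-(3*M)) (3*M) (-(3*M)) (-M))) (-(3*M), yB) (3*M, yB'))
    {xL xL' : ℤ}
    (hL : Reach (F ∩ ↑(TBE (-(3*M)) (-M) (-(3*M)) (3*M))) (xL, -(3*M)) (xL', 3*M))
    {yT yT' : ℤ} (hyT : M ≤ yT ∧ yT ≤ 3*M) (hyT' : M ≤ yT' ∧ yT' ≤ 3*M)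
    (hT : Reach (F ∩ ↑(LRE (-(3*M)) (4*M) M (3*M))) (-(3*M), yT) (4*M, yT'))
    {u v : Vtx} (hu : inR (-(M-1)) (M-1) (-(M-1)) (M-1) u)
    (hv : v.1 = -(4*M) ∨ v.1 = 4*M ∨ v.2 = -(4*M) ∨ v.2 = 4*M) (huv : Reach J u v) :
    Reach J u (x, -(3*M)) := by
  -- the right path
  obtain ⟨wR, hwR, hR1⟩ := stop_col (b := 2) hR (by unfold col; simp only; omega)
    (by unfold col; simp only; omega)
  have hR2 : Reach (J ∩ ↑(RE M (3*M) (-(3*M)) (4*M))) (x, -(3*M)) wR := by
    refine hR1.mono ?_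
    rintro ⟨x0, y0, bo⟩ ⟨⟨h1, h2⟩, h3⟩
    refine ⟨hJ3 _ h1 ?_ ?_ ?_, TBE_subset_RE (mem_coe.mp h2)⟩
    · cases bo
      · simp only [mem_coe, mem_TBE_false, mem_RE_false] at h2 ⊢; omega
      · simp only [mem_coe, mem_TBE_true, mem_RE_true] at h2 ⊢; omega
    · cases bo
      · simp only [mem_coe, mem_TBE_false, mem_RE_false] at h2 ⊢; omega
      · simp only [mem_coe, mem_TBE_true, mem_RE_true] at h2 ⊢; omega
    · unfold col at h3
      cases bo
      · simp only [Set.mem_ofPred_eq, src_mk, tgt_false] at h3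
        rw [slt_false]; omega
      · simp only [Set.mem_ofPred_eq, src_mk, tgt_true] at h3
        rw [slt_true]; omega
  have hwR1 : inR M (3*M) (-(3*M)) (4*M) wR := stay hR2 (by unfold inR; simp only; omega)
  -- the top path
  obtain ⟨wT, hwT, hT1⟩ := stop_col' (b := 0) hT (by unfold col; simp only; omega)
    (by unfold col; simp only; omega)
  have hT2' : Reach (J ∩ {e | col (src e) ≤ 0 ∧ col (tgt e) ≤ 0} ∩
      ↑(RE (-(3*M)) (4*M) M (3*M))) (-(3*M), yT) wT := by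
    refine hT1.mono ?_
    rintro ⟨x0, y0, bo⟩ ⟨⟨h1, h2⟩, h3⟩
    refine ⟨⟨hJ3 _ h1 ?_ ?_ ?_, h3⟩, LRE_subset_RE (mem_coe.mp h2)⟩
    · cases bo
      · simp only [mem_coe, mem_LRE_false, mem_RE_false] at h2 ⊢; omega
      · simp only [mem_coe, mem_LRE_true, mem_RE_true] at h2 ⊢; omega
    · cases bo
      · simp only [mem_coe, mem_LRE_false, mem_RE_false] at h2 ⊢; omega
      · simp only [mem_coe, mem_LRE_true, mem_RE_true] at h2 ⊢; omega
    · unfold col at h3
      cases bo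
      · simp only [Set.mem_ofPred_eq, src_mk, tgt_false] at h3
        rw [slt_false]; omega
      · simp only [Set.mem_ofPred_eq, src_mk, tgt_true] at h3
        rw [slt_true]; omega
  have hT2 : Reach (J ∩ ↑(RE (-(3*M)) (4*M) M (3*M))) (-(3*M), yT) wT :=
    hT2'.mono (Set.inter_subset_inter_left _ Set.inter_subset_left)
  have hwT1 : inR (-(3*M)) (4*M) M (3*M) wT := stay hT2 (by unfold inR; simp only; omega)
  -- the bottom path
  have hB2 : Reach (J ∩ ↑(RE (-(3*M)) (3*M) (-(3*M)) (-M))) (-(3*M), yB) (3*M, yB') := by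
    refine hB.mono ?_
    rintro ⟨x0, y0, bo⟩ ⟨h1, h2⟩
    refine ⟨hJ3 _ h1 ?_ ?_ ?_, LRE_subset_RE (mem_coe.mp h2)⟩
    · cases bo
      · simp only [mem_coe, mem_LRE_false, mem_RE_false] at h2 ⊢; omega
      · simp only [mem_coe, mem_LRE_true, mem_RE_true] at h2 ⊢; omega
    · cases bo
      · simp only [mem_coe, mem_LRE_false, mem_RE_false] at h2 ⊢; omega
      · simp only [mem_coe, mem_LRE_true, mem_RE_true] at h2 ⊢; omega
    · cases bo
      · simp only [mem_coe, mem_LRE_false] at h2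
        rw [slt_false]; omega
      · simp only [mem_coe, mem_LRE_true] at h2
        rw [slt_true]; omega
  -- the left path
  have hL2 : Reach (J ∩ ↑(RE (-(3*M)) (-M) (-(3*M)) (3*M))) (xL, -(3*M)) (xL', 3*M) := by
    refine hL.mono ?_
    rintro ⟨x0, y0, bo⟩ ⟨h1, h2⟩
    refine ⟨hJ3 _ h1 ?_ ?_ ?_, TBE_subset_RE (mem_coe.mp h2)⟩
    · cases bo
      · simp only [mem_coe, mem_TBE_false, mem_RE_false] at h2 ⊢; omega
      · simp only [mem_coe, mem_TBE_true, mem_RE_true] at h2 ⊢; omega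
    · cases bo
      · simp only [mem_coe, mem_TBE_false, mem_RE_false] at h2 ⊢; omega
      · simp only [mem_coe, mem_TBE_true, mem_RE_true] at h2 ⊢; omega
    · cases bo
      · simp only [mem_coe, mem_TBE_false] at h2
        rw [slt_false]; omega
      · simp only [mem_coe, mem_TBE_true] at h2
        rw [slt_true]; omega
  unfold col at hwR hwT
  unfold inR at hwR1 hwT1
  obtain ⟨rx, ry⟩ := wR
  obtain ⟨tx, ty⟩ := wT
  simp only at hwR hwT hwR1 hwT1
  -- the four paths meet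
  have mRB : Reach J (-(3*M), yB) (x, -(3*M)) :=
    (cross_meet (F := J) (A := -(3*M)) (B := 3*M) (C := -(3*M)) (D := 4*M)
      (a := M) (b := 3*M) (c := -(3*M)) (d := -M) (by omega) (by omega) le_rfl le_rfl (by omega)
      (by omega) hB2 (by simp only; omega) le_rfl hR2 le_rfl (by simp only; omega)).mono
      Set.inter_subset_left
  have mBL : Reach J (-(3*M), yB) (xL, -(3*M)) :=
    (cross_meet (F := J) (A := -(3*M)) (B := 3*M) (C := -(3*M)) (D := 3*M)
      (a := -(3*M)) (b := -M) (c := -(3*M)) (d := -M) le_rfl (by omega) (by omega) le_rfl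
      (by omega) (by omega) hB2 le_rfl (by simp only; omega) hL2 le_rfl
      (by simp only; omega)).mono Set.inter_subset_left
  have mTL : Reach J (-(3*M), yT) (xL, -(3*M)) :=
    (cross_meet (F := J) (A := -(3*M)) (B := 4*M) (C := -(3*M)) (D := 3*M)
      (a := -(3*M)) (b := -M) (c := M) (d := 3*M) le_rfl (by omega) (by omega) (by omega)
      (by omega) le_rfl hT2 le_rfl (by simp only; omega) hL2 (by simp only; omega)
      le_rfl).mono Set.inter_subset_left
  have zL : Reach J (xL, -(3*M)) (x, -(3*M)) := mBL.symm.trans mRB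
  have zT : Reach J (-(3*M), yT) (x, -(3*M)) := mTL.trans zL
  -- the exit point
  obtain ⟨w, hw1, hw2, hw3⟩ := first_exit (a := -(3*M)) (b := 3*M) (c := -(3*M)) (d := 3*M)
    (by unfold inR at hu ⊢; omega) huv (by omega)
  have huw : Reach J u w := hw3.mono Set.inter_subset_left
  unfold inR at hw1 hu
  -- exit at the top
  have top : ∀ w : Vtx, -(3*M) ≤ w.1 → w.1 ≤ 3*M → w.2 = 3*M →
      Reach (J ∩ ↑(RE (-(3*M)) (3*M) (-(3*M)) (3*M))) u w → Reach J u (x, -(3*M)) := by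
    intro w hwa hwb hw2 hw3
    obtain ⟨x1, x2, k1, k2, k3, k4⟩ := sub_TB (a := -(3*M)) (b := 3*M) (c := M) (d := 3*M)
      (by omega)
      (by rintro x y ⟨-, h⟩ _ _; simp only [mem_coe, mem_RE_false] at h; omega)
      (by rintro x y ⟨-, h⟩ _ _; simp only [mem_coe, mem_RE_true] at h; omega) hw3
      (by omega) (by omega)
    obtain ⟨hc1, hk⟩ := keep (P := fun z => col z ≤ 0) (by
      rintro ⟨x0, y0, bo⟩ ⟨⟨h1, -⟩, h2⟩
      refine keep_zero hM hJ2 h1 ?_ ?_
      · cases bo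
        · simp only [mem_coe, mem_TBE_false, src_mk] at h2 ⊢; omega
        · simp only [mem_coe, mem_TBE_true, src_mk] at h2 ⊢; omega
      · cases bo
        · simp only [mem_coe, mem_TBE_false, tgt_false] at h2 ⊢; omega
        · simp only [mem_coe, mem_TBE_true, tgt_true] at h2 ⊢; omega) k3.symm
      (by unfold col; simp only; omega)
    set S : Set Edg := {e | e.2.1 = ty ∧ e.2.2 = true ∧ tx ≤ e.1 ∧ e.1 < 4*M} with hS
    set I : Set Vtx := {z | z.2 = ty ∧ tx < z.1} with hI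
    set J' : Set Edg := J ∩ {e | col (src e) ≤ 0 ∧ col (tgt e) ≤ 0} with hJ'
    have hseg1 : Reach (S ∩ ↑(RE (-(3*M)) (4*M) M (3*M))) (tx, ty) (4*M, ty) := by
      have := hseg (S := S ∩ ↑(RE (-(3*M)) (4*M) M (3*M))) (x0 := tx) (y := ty)
        (4*M - tx).toNat (by
          intro y1 h1 h2
          refine ⟨⟨rfl, rfl, h1, by show y1 < 4*M; omega⟩, ?_⟩
          simp only [mem_coe, mem_RE_true]; omega)
      rwa [show tx + ((4*M - tx).toNat : ℤ) = 4*M by omega] at this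
    have hT3 : Reach ((J' ∪ S) ∩ ↑(RE (-(3*M)) (4*M) M (3*M))) (-(3*M), yT) (4*M, ty) :=
      (hT2'.mono (Set.inter_subset_inter_left _ Set.subset_union_left)).trans
        (hseg1.mono (Set.inter_subset_inter_left _ Set.subset_union_right))
    have hk2 : Reach ((J' ∪ S) ∩ ↑(RE (-(3*M)) (3*M) M (3*M))) (x1, M) (x2, 3*M) := by
      refine hk.symm.mono ?_
      rintro e ⟨⟨⟨h1, -⟩, h2⟩, h3⟩
      exact ⟨Or.inl ⟨h1, h3⟩, TBE_subset_RE (mem_coe.mp h2)⟩
    have m := cross_meet (F := J' ∪ S) (A := -(3*M)) (B := 4*M) (C := M) (D := 3*M)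
      (a := -(3*M)) (b := 3*M) (c := M) (d := 3*M) le_rfl (by omega) (by omega) le_rfl (by omega)
      le_rfl hT3 le_rfl (by simp only; omega) hk2 le_rfl le_rfl
    have m2 : Reach J' (-(3*M), yT) (x1, M) := by
      refine lift (S := S) (I := I) (w0 := (tx, ty)) ?_ ?_ (m.mono Set.inter_subset_left) ?_ ?_
      · rintro e ⟨-, he1, he2⟩
        unfold col at he1 he2
        simp only [hI, Set.mem_ofPred_eq]
        omega
      · rintro ⟨x0, y0, bo⟩ ⟨h1, h2, h3, h4⟩
        simp only at h1 h2 h3 h4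
        subst h2
        simp only [src_mk, tgt_true, hI, Set.mem_ofPred_eq, Prod.mk.injEq]
        omega
      · simp only [hI, Set.mem_ofPred_eq]
        omega
      · unfold col at hc1
        simp only [hI, Set.mem_ofPred_eq] at hc1 ⊢
        omega
    exact ((k4.mono Set.inter_subset_left).trans
      (m2.mono (by rw [hJ']; exact Set.inter_subset_left)).symm).trans zT
  by_cases hc2 : w.2 = 3*M
  · exact top w hw1.1.1 hw1.1.2 hc2 hw3
  by_cases hc3 : w.2 = -(3*M)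
  · -- exit at the bottom
    have m := cross_meet (F := J) (A := -(3*M)) (B := 3*M) (C := -(3*M)) (D := 3*M)
      (a := -(3*M)) (b := 3*M) (c := -(3*M)) (d := -M) le_rfl (by omega) le_rfl le_rfl
      (by omega) (by omega) hB2 le_rfl le_rfl hw3.symm hc3.le (by omega)
    exact (huw.trans (m.mono Set.inter_subset_left).symm).trans mRB
  by_cases hc4 : w.1 = -(3*M)
  · -- exit at the left
    have m := cross_meet (F := J) (A := -(3*M)) (B := 3*M) (C := -(3*M)) (D := 3*M)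
      (a := -(3*M)) (b := -M) (c := -(3*M)) (d := 3*M) le_rfl (by omega) (by omega) le_rfl
      (by omega) le_rfl hw3.symm hc4.le (by omega) hL2 le_rfl le_rfl
    exact (huw.trans (m.mono Set.inter_subset_left)).trans zL
  -- exit at the right
  have hc5 : w.1 = 3*M := by omega
  obtain ⟨y1, y2, k1, k2, k3, k4⟩ := sub_LR (a := M) (b := 3*M) (c := -(3*M)) (d := 3*M)
    (by omega)
    (by rintro x y ⟨-, h⟩ _ _; simp only [mem_coe, mem_RE_true] at h; omega)
    (by rintro x y ⟨-, h⟩ _ _; simp only [mem_coe, mem_RE_false] at h; omega) hw3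
    (by omega) (by omega)
  have hG : ∀ e ∈ J ∩ ↑(RE (-(3*M)) (3*M) (-(3*M)) (3*M)) ∩ (↑(LRE M (3*M) (-(3*M)) (3*M)) : Set Edg),
      e ∈ J ∧ M ≤ (src e).1 ∧ M ≤ (tgt e).1 := by
    rintro ⟨x0, y0, bo⟩ ⟨⟨h1, -⟩, h2⟩
    refine ⟨h1, ?_, ?_⟩
    · cases bo
      · simp only [mem_coe, mem_LRE_false, src_mk] at h2 ⊢; omega
      · simp only [mem_coe, mem_LRE_true, src_mk] at h2 ⊢; omega
    · cases bo
      · simp only [mem_coe, mem_LRE_false, tgt_false] at h2 ⊢; omega
      · simp only [mem_coe, mem_LRE_true, tgt_true] at h2 ⊢; omega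
  by_cases hy2 : y2 = 3*M
  · refine top (3*M, y2) (by simp only; omega) le_rfl hy2 (k4.trans ?_)
    exact k3.mono Set.inter_subset_left
  have hcol2 : 2 ≤ col ((3*M, y2) : Vtx) := by
    obtain ⟨e, he, hc⟩ := last_edge k3 (by
      intro h
      simp only [Prod.mk.injEq] at h
      omega)
    obtain ⟨g1, g2, g3⟩ := hG e he
    obtain ⟨g4, g5⟩ := ne_one hM hJ2 g1 g2 g3
    have g6 : col ((3*M, y2) : Vtx) ≠ 1 := by
      rcases hc with hc | hc
      · rw [← hc]; exact g4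
      · rw [← hc]; exact g5
    unfold col at g6 ⊢
    simp only at g6 ⊢
    omega
  obtain ⟨hc1, hk⟩ := keep (P := fun z => 2 ≤ col z) (by
      intro e he
      obtain ⟨g1, g2, g3⟩ := hG e he
      exact keep_two hM hJ2 g1 g2 g3) k3.symm hcol2
  set S : Set Edg := {e | e.1 = rx ∧ e.2.2 = false ∧ ry ≤ e.2.1 ∧ e.2.1 < 4*M} with hS
  set I : Set Vtx := {z | z.1 = rx ∧ ry < z.2} with hI
  set J' : Set Edg := J ∩ {e | 2 ≤ col (src e) ∧ 2 ≤ col (tgt e)} with hJ'
  have hseg1 : Reach (S ∩ ↑(RE M (3*M) (-(3*M)) (4*M))) (rx, ry) (rx, 4*M) := by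
    have := vseg (S := S ∩ ↑(RE M (3*M) (-(3*M)) (4*M))) (x := rx) (y0 := ry)
      (4*M - ry).toNat (by
        intro y1 h1 h2
        refine ⟨⟨rfl, rfl, h1, by show y1 < 4*M; omega⟩, ?_⟩
        simp only [mem_coe, mem_RE_false]; omega)
    rwa [show ry + ((4*M - ry).toNat : ℤ) = 4*M by omega] at this
  have hR2' : Reach (J' ∩ ↑(RE M (3*M) (-(3*M)) (4*M))) (x, -(3*M)) (rx, ry) := by
    refine hR1.mono ?_
    rintro ⟨x0, y0, bo⟩ ⟨⟨h1, h2⟩, h3⟩
    refine ⟨⟨hJ3 _ h1 ?_ ?_ ?_, h3⟩, TBE_subset_RE (mem_coe.mp h2)⟩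
    · cases bo
      · simp only [mem_coe, mem_TBE_false, mem_RE_false] at h2 ⊢; omega
      · simp only [mem_coe, mem_TBE_true, mem_RE_true] at h2 ⊢; omega
    · cases bo
      · simp only [mem_coe, mem_TBE_false, mem_RE_false] at h2 ⊢; omega
      · simp only [mem_coe, mem_TBE_true, mem_RE_true] at h2 ⊢; omega
    · unfold col at h3
      cases bo
      · simp only [Set.mem_ofPred_eq, src_mk, tgt_false] at h3
        rw [slt_false]; omega
      · simp only [Set.mem_ofPred_eq, src_mk, tgt_true] at h3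
        rw [slt_true]; omega
  have hR3 : Reach ((J' ∪ S) ∩ ↑(RE M (3*M) (-(3*M)) (4*M))) (x, -(3*M)) (rx, 4*M) :=
    (hR2'.mono (Set.inter_subset_inter_left _ Set.subset_union_left)).trans
      (hseg1.mono (Set.inter_subset_inter_left _ Set.subset_union_right))
  have hk2 : Reach ((J' ∪ S) ∩ ↑(RE M (3*M) (-(3*M)) (3*M))) (M, y1) (3*M, y2) := by
    refine hk.symm.mono ?_
    rintro e ⟨⟨⟨h1, -⟩, h2⟩, h3⟩
    exact ⟨Or.inl ⟨h1, h3⟩, LRE_subset_RE (mem_coe.mp h2)⟩
  have m := cross_meet (F := J' ∪ S) (A := M) (B := 3*M) (C := -(3*M)) (D := 4*M)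
    (a := M) (b := 3*M) (c := -(3*M)) (d := 3*M) le_rfl (by omega) le_rfl le_rfl (by omega)
    (by omega) hk2 le_rfl le_rfl hR3 le_rfl (by simp only; omega)
  have m2 : Reach J' (M, y1) (x, -(3*M)) := by
    refine lift (S := S) (I := I) (w0 := (rx, ry)) ?_ ?_ (m.mono Set.inter_subset_left) ?_ ?_
    · rintro e ⟨-, he1, he2⟩
      unfold col at he1 he2
      simp only [hI, Set.mem_ofPred_eq]
      omega
    · rintro ⟨x0, y0, bo⟩ ⟨h1, h2, h3, h4⟩
      simp only at h1 h2 h3 h4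
      subst h2
      simp only [src_mk, tgt_false, hI, Set.mem_ofPred_eq, Prod.mk.injEq]
      omega
    · unfold col at hc1
      simp only [hI, Set.mem_ofPred_eq] at hc1 ⊢
      omega
    · simp only [hI, Set.mem_ofPred_eq]
      omega
  exact (k4.mono Set.inter_subset_left).trans (m2.mono (by rw [hJ']; exact Set.inter_subset_left))

theorem t_UNI2 : UniStm2 := by
  intro m hm F G hG hBar
  obtain ⟨⟨x, x', hx, hx', hR⟩, ⟨yB, yB', -, -, hB⟩, ⟨xL, xL', -, -, hL⟩,
    ⟨yT, yT', hyT, hyT', hT⟩⟩ := hBar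
  have hm' : (4:ℤ) ≤ m := by exact_mod_cast hm
  have e1 : boxE (4*m) = RE (-(4*(m:ℤ))) (4*m) (-(4*(m:ℤ))) (4*m) := by
    unfold boxE; push_cast; rfl
  have e2 : boxE (m-1) = RE (-((m:ℤ)-1)) (m-1) (-((m:ℤ)-1)) (m-1) := by
    unfold boxE; rw [Nat.cast_sub (by omega)]; push_cast; rfl
  refine ⟨(x, -(3*(m:ℤ))), ?_⟩
  intro u v hu hv huv
  refine core2 (M := m) (F := ↑F) hm' ?_ ?_ hx hx' hR hB hL hyT hyT' hT (v := v) ?_ ?_ huv
  · rintro e ⟨⟨-, he⟩, he'⟩ hout
    rw [← e2] at hout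
    exact (hG e he' hout).mp he
  · intro e he h1 h2 h3
    rw [← e1] at h1
    rw [← e2] at h2
    exact ⟨⟨he, (hG e h1 h2).mpr h3⟩, h1⟩
  · unfold inB at hu
    rw [Nat.cast_sub (by omega)] at hu
    push_cast at hu
    exact hu
  · have := hv.2
    push_cast at this
    exact this

end Pool.Agent.U789.SA
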